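import Pool.Agent.Helper80.EC_F.Goals

/-!
# MP_ecc237_nt, Part F, packet M2Q: expansion (F1) of `M_2`
-/

set_option autoImplicit false

open MeasureTheory Filter Topology Set

namespace EC237.PF.PkM2Q

/-- The summand of `M_2`. -/
noncomputable def fk (y : ℝ) (k : ℤ × ℤ) : ℝ :=
  if InCl 1 k then (k.2:ℝ) * y ^ 2 * (10 * (k.1:ℝ) ^ 2 - 2 * (k.2:ℝ) ^ 2 * y ^ 2) / Nn y k ^ 4
  else 0

/-- The sum over `k` for given `M = r + 1`. -/
noncomputable def Sr (y : ℝ) (r : ℕ) : ℝ :=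
  ∑' k : ℕ, ((k:ℝ) + 1) ^ 2 * (-1) ^ ((k + 1) * r) *
    (1 + Real.pi * ((r:ℝ) + 1) * ((k:ℝ) + 1) * y) * QQ y (r, k)

theorem fk_summable (h1 : G_SUMA) {y : ℝ} (hy : 0 < y) : Summable (fk y) := by
  refine Summable.of_norm_bounded (h1 y hy).2 fun k => ?_
  unfold fk
  split_ifs with h
  · rw [Real.norm_eq_abs, abs_div, abs_mul, abs_mul]
    have e1 : |y ^ 2| = y ^ 2 := abs_of_nonneg (sq_nonneg y)
    have e2 : |Nn y k ^ 4| = Nn y k ^ 4 := abs_of_nonneg (by positivity)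
    have e3 : |10 * (k.1:ℝ) ^ 2 - 2 * (k.2:ℝ) ^ 2 * y ^ 2| ≤
        10 * (k.1:ℝ) ^ 2 + 2 * (k.2:ℝ) ^ 2 * y ^ 2 := by
      rw [abs_le]
      constructor <;> nlinarith [sq_nonneg (k.1:ℝ), mul_nonneg (sq_nonneg (k.2:ℝ)) (sq_nonneg y)]
    rw [e1, e2]
    gcongr
  · rw [norm_zero]
    have : 0 ≤ Nn y k ^ 4 := by positivity
    positivity

theorem cosl (r k : ℕ) (m : ℤ) (h : m = r + 1 ∨ m = -(r + 1)) :
    Real.cos (2 * Real.pi * ((k:ℝ) + 1) * (((m:ℝ) - 1) / 2)) = (-1) ^ ((k + 1) * r) := by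
  have hc : Real.cos ((((k + 1) * r : ℕ) : ℝ) * Real.pi) = (-1) ^ ((k + 1) * r) :=
    Real.cos_nat_mul_pi _
  rw [← hc]
  rcases h with h | h
  · congr 1
    rw [h]
    push_cast
    ring
  · have e : 2 * Real.pi * ((k:ℝ) + 1) * (((m:ℝ) - 1) / 2) =
        -((((k + 1) * r : ℕ) : ℝ) * Real.pi + ((k + 1 : ℕ) : ℝ) * (2 * Real.pi)) := by
      rw [h]
      push_cast
      ring
    rw [e, Real.cos_neg, Real.cos_add_nat_mul_two_pi]

theorem inner_zero (y : ℝ) {m : ℤ} (hm : m % 3 ≠ 1) : ∑' n : ℤ, fk y (n, m) = 0 := by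
  have : ∀ n : ℤ, fk y (n, m) = 0 := by
    intro n
    unfold fk
    rw [if_neg]
    unfold InCl
    simp only
    omega
  simp [this]

theorem fk_shift {y : ℝ} {m : ℤ} (hm : m % 3 = 1) {r : ℕ}
    (h : m = r + 1 ∨ m = -(r + 1)) (j : ℤ) :
    fk y (2 * j + (m - 1), m) = (m:ℝ) * y ^ 2 / 64 *
      ((10 * ((j:ℝ) + ((m:ℝ) - 1) / 2) ^ 2 - 2 * (((r:ℝ) + 1) * y / 2) ^ 2) /
        (((j:ℝ) + ((m:ℝ) - 1) / 2) ^ 2 + (((r:ℝ) + 1) * y / 2) ^ 2) ^ 4) := by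
  have hm2 : (m:ℝ) ^ 2 = ((r:ℝ) + 1) ^ 2 := by
    rcases h with h | h <;> rw [h] <;> push_cast <;> ring
  unfold fk
  rw [if_pos (by unfold InCl; simp only; omega)]
  have hN : Nn y (2 * j + (m - 1), m) =
      4 * (((j:ℝ) + ((m:ℝ) - 1) / 2) ^ 2 + (((r:ℝ) + 1) * y / 2) ^ 2) := by
    unfold Nn
    simp only
    push_cast
    rw [hm2]
    ring
  rw [hN]
  simp only
  push_cast
  have hnum : (m:ℝ) * y ^ 2 * (10 * (2 * (j:ℝ) + ((m:ℝ) - 1)) ^ 2 - 2 * (m:ℝ) ^ 2 * y ^ 2) =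
      4 * ((m:ℝ) * y ^ 2 * (10 * ((j:ℝ) + ((m:ℝ) - 1) / 2) ^ 2 -
        2 * (((r:ℝ) + 1) * y / 2) ^ 2)) := by
    rw [hm2]
    ring
  rw [hnum]
  generalize ((j:ℝ) + ((m:ℝ) - 1) / 2) ^ 2 + (((r:ℝ) + 1) * y / 2) ^ 2 = D
  generalize 10 * ((j:ℝ) + ((m:ℝ) - 1) / 2) ^ 2 - 2 * (((r:ℝ) + 1) * y / 2) ^ 2 = E
  rw [mul_pow, mul_div_mul_comm]
  ring

theorem inner (h3 : G_LIPN) {y : ℝ} (hy : 0 < y) {m : ℤ} (hm : m % 3 = 1) {r : ℕ}
    (h : m = r + 1 ∨ m = -(r + 1)) :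
    ∑' n : ℤ, fk y (n, m) =
      -(Real.pi ^ 3 / (4 * y)) * ((m:ℝ) / ((r:ℝ) + 1) ^ 3) * Sr y r := by
  have hinj : Function.Injective (fun j : ℤ => 2 * j + (m - 1)) := by
    intro a b hab
    simp only at hab
    omega
  have hsupp : Function.support (fun n : ℤ => fk y (n, m)) ⊆
      Set.range (fun j : ℤ => 2 * j + (m - 1)) := by
    intro n hn
    rw [Function.mem_support] at hn
    have hI : InCl 1 (n, m) := by
      by_contra hI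
      apply hn
      unfold fk
      rw [if_neg hI]
    unfold InCl at hI
    simp only at hI
    refine ⟨(n - (m - 1)) / 2, ?_⟩
    simp only
    omega
  have e1 : ∑' n : ℤ, fk y (n, m) = ∑' j : ℤ, fk y (2 * j + (m - 1), m) :=
    (hinj.tsum_eq hsupp).symm
  have hv : 0 < ((r:ℝ) + 1) * y / 2 := by positivity
  have hs := ((h3 (((r:ℝ) + 1) * y / 2) (((m:ℝ) - 1) / 2) hv).mul_left
    ((m:ℝ) * y ^ 2 / 64)).tsum_eq
  rw [e1, tsum_congr (fk_shift hm h), hs]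
  have e2 : ∑' k : ℕ, ((k:ℝ) + 1) ^ 2 * (1 + 2 * Real.pi * (((r:ℝ) + 1) * y / 2) * ((k:ℝ) + 1)) *
      Real.exp (-(2 * Real.pi * (((r:ℝ) + 1) * y / 2) * ((k:ℝ) + 1))) *
      Real.cos (2 * Real.pi * ((k:ℝ) + 1) * (((m:ℝ) - 1) / 2)) = Sr y r := by
    unfold Sr
    refine tsum_congr fun k => ?_
    rw [cosl r k m h]
    have e3 : 2 * Real.pi * (((r:ℝ) + 1) * y / 2) * ((k:ℝ) + 1) =
        Real.pi * ((r:ℝ) + 1) * ((k:ℝ) + 1) * y := by ring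
    rw [e3]
    unfold QQ
    simp only
    ring
  rw [e2]
  have hr : ((r:ℝ) + 1) ≠ 0 := by positivity
  have hy' : y ≠ 0 := hy.ne'
  field_simp
  ring

theorem tM2_sum (y : ℝ) (r : ℕ) : ∑' k : ℕ, tM2 y (r, k) =
    -(Real.pi ^ 3 / (4 * y)) * (chi ((r:ℤ) + 1) / ((r:ℝ) + 1) ^ 2) * Sr y r := by
  unfold Sr
  rw [← tsum_mul_left]
  refine tsum_congr fun k => ?_
  unfold tM2 sgn2
  simp only
  ring

theorem pair (h3 : G_LIPN) {y : ℝ} (hy : 0 < y) (r : ℕ) :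
    (∑' n : ℤ, fk y (n, (r:ℤ) + 1)) + (∑' n : ℤ, fk y (n, -((r:ℤ) + 1))) =
      ∑' k : ℕ, tM2 y (r, k) := by
  rw [tM2_sum]
  have hr : ((r:ℝ) + 1) ≠ 0 := by positivity
  unfold chi
  by_cases c1 : ((r:ℤ) + 1) % 3 = 1
  · rw [inner h3 hy c1 (Or.inl rfl), inner_zero y (m := -((r:ℤ) + 1)) (by omega), if_pos c1,
      add_zero]
    congr 2
    push_cast
    field_simp
  · by_cases c2 : ((r:ℤ) + 1) % 3 = 2
    · rw [inner_zero y c1, inner h3 hy (m := -((r:ℤ) + 1)) (by omega) (Or.inr rfl), if_neg c1,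
        if_pos c2, zero_add]
      congr 2
      push_cast
      field_simp
    · rw [inner_zero y c1, inner_zero y (m := -((r:ℤ) + 1)) (by omega), if_neg c1, if_neg c2]
      simp

theorem thm (h1 : G_SUMA) (h2 : G_SUMT) (h3 : G_LIPN) : EC237.PF.G_M2Q := by
  intro y hy
  have hs := fk_summable h1 hy
  have hs' : Summable fun p : ℤ × ℤ => fk y (p.2, p.1) := by
    have h := hs.comp_injective (Prod.swap_injective (α := ℤ) (β := ℤ))
    exact h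
  have e1 : M2 y = ∑' m : ℤ, ∑' n : ℤ, fk y (n, m) := by
    have e0 : M2 y = ∑' k : ℤ × ℤ, fk y k := by
      unfold M2 fk
      rfl
    have e3 : ∑' k : ℤ × ℤ, fk y k = ∑' p : ℤ × ℤ, fk y (p.2, p.1) := by
      have h := (Equiv.prodComm ℤ ℤ).tsum_eq (fk y)
      exact h.symm
    have e4 : ∑' p : ℤ × ℤ, fk y (p.2, p.1) = ∑' m : ℤ, ∑' n : ℤ, fk y (n, m) := by
      have h := Summable.tsum_prod hs'
      exact h
    rw [e0, e3, e4]
  have hF : Summable fun m : ℤ => ∑' n : ℤ, fk y (n, m) := hs'.prod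
  obtain ⟨F, hFd⟩ : ∃ F : ℤ → ℝ, F = fun m : ℤ => ∑' n : ℤ, fk y (n, m) := ⟨_, rfl⟩
  rw [← hFd] at hF
  have hFm : ∀ m : ℤ, F m = ∑' n : ℤ, fk y (n, m) := fun m => by rw [hFd]
  have hF1 : Summable fun r : ℕ => F ((r:ℤ) + 1) := by
    have hi : Function.Injective (fun r : ℕ => (r:ℤ) + 1) := by
      intro a b hab
      simp only at hab
      omega
    exact hF.comp_injective hi
  have hF2 : Summable fun r : ℕ => F (-((r:ℤ) + 1)) := by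
    have hi : Function.Injective (fun r : ℕ => -((r:ℤ) + 1)) := by
      intro a b hab
      simp only at hab
      omega
    exact hF.comp_injective hi
  have e2 : M2s y = ∑' r : ℕ, ∑' k : ℕ, tM2 y (r, k) := by
    unfold M2s
    exact Summable.tsum_prod (h2.2.1 y hy)
  have e5 : ∑' m : ℤ, ∑' n : ℤ, fk y (n, m) = ∑' m : ℤ, F m := by rw [hFd]
  have e6 : F 0 = 0 := by rw [hFm]; exact inner_zero y (by norm_num)
  rw [e1, e2, e5, tsum_of_add_one_of_neg_add_one hF1 hF2, e6, add_zero, ← hF1.tsum_add hF2]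
  refine tsum_congr fun r => ?_
  rw [hFm, hFm]
  exact pair h3 hy r

end EC237.PF.PkM2Q
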